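import Mathlib

set_option autoImplicit false

/-!
General lemmas of complex analysis in one variable used for the instance of `CoverData`
(problem MP_9ef1f5_an).
-/

open Set Filter Topology Metric
open scoped Convex

namespace Pool.Agent.H32Cover

/-- A convex open subset of the plane minus a countable set is preconnected. -/
theorem isPreconnected_diff_countable {W s : Set ℂ} (hW : Convex ℝ W) (hWo : IsOpen W)
    (hs : s.Countable) : IsPreconnected (W \ s) := by
  have h : 1 < Module.rank ℝ ℂ := by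
    rw [Complex.rank_real_complex]; exact Cardinal.one_lt_two
  rcases (W \ s).eq_empty_or_nonempty with he | ⟨a, ha⟩
  · rw [he]; exact isPreconnected_empty
  refine IsPathConnected.isConnected ?_ |>.isPreconnected
  refine ⟨a, ha, ?_⟩
  intro b hb
  rcases eq_or_ne a b with rfl | hab
  · exact JoinedIn.refl ha
  let c := (2 : ℝ)⁻¹ • (a + b)
  let x := (2 : ℝ)⁻¹ • (b - a)
  have Ia : c - x = a := by
    simp only [c, x]
    module
  have Ib : c + x = b := by
    simp only [c, x]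
    module
  have hcW : c ∈ W := by
    have := hW ha.1 hb.1 (by norm_num : (0 : ℝ) ≤ 2⁻¹) (by norm_num : (0 : ℝ) ≤ 2⁻¹) (by norm_num)
    simpa [c, smul_add] using this
  have x_ne_zero : x ≠ 0 := by simpa [x] using sub_ne_zero.2 hab.symm
  obtain ⟨y, hy⟩ : ∃ y, LinearIndependent ℝ ![x, y] :=
    exists_linearIndependent_pair_of_one_lt_rank h x_ne_zero
  have A : Set.Countable {t : ℝ | ([c + x -[ℝ] c + t • y] ∩ s).Nonempty} := by
    apply countable_ofPred_nonempty_of_disjoint _ (fun t ↦ inter_subset_right) hs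
    intro t t' htt'
    apply disjoint_iff_inter_eq_empty.2
    have N : {c + x} ∩ s = ∅ := by
      simpa only [singleton_inter_eq_empty, mem_compl_iff, Ib] using hb.2
    rw [inter_assoc, inter_comm s, inter_assoc, inter_self, ← inter_assoc, ← subset_empty_iff, ← N]
    apply inter_subset_inter_left
    apply Eq.subset
    apply segment_inter_eq_endpoint_of_linearIndependent_of_ne hy htt'.symm
  have B : Set.Countable {t : ℝ | ([c - x -[ℝ] c + t • y] ∩ s).Nonempty} := by
    apply countable_ofPred_nonempty_of_disjoint _ (fun t ↦ inter_subset_right) hs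
    intro t t' htt'
    apply disjoint_iff_inter_eq_empty.2
    have N : {c - x} ∩ s = ∅ := by
      simpa only [singleton_inter_eq_empty, mem_compl_iff, Ia] using ha.2
    rw [inter_assoc, inter_comm s, inter_assoc, inter_self, ← inter_assoc, ← subset_empty_iff, ← N]
    apply inter_subset_inter_left
    rw [sub_eq_add_neg _ x]
    apply Eq.subset
    apply segment_inter_eq_endpoint_of_linearIndependent_of_ne _ htt'.symm
    convert! hy.units_smul ![-1, 1]
    simp [← List.ofFn_inj]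
  have hO : IsOpen {t : ℝ | c + t • y ∈ W} := hWo.preimage (by fun_prop)
  have hO' : {t : ℝ | c + t • y ∈ W}.Nonempty := ⟨0, by simpa using hcW⟩
  obtain ⟨t, htW, ht⟩ : Set.Nonempty ({t : ℝ | c + t • y ∈ W} ∩
      ({t : ℝ | ([c + x -[ℝ] c + t • y] ∩ s).Nonempty}
      ∪ {t : ℝ | ([c - x -[ℝ] c + t • y] ∩ s).Nonempty})ᶜ) :=
    ((A.union B).dense_compl ℝ).inter_open_nonempty _ hO hO'
  let z := c + t • y
  simp only [compl_union, mem_inter_iff, mem_compl_iff, mem_ofPred_eq, not_nonempty_iff_eq_empty]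
    at ht
  have JA : JoinedIn (W \ s) a z := by
    apply JoinedIn.of_segment_subset
    rw [sdiff_eq]
    refine subset_inter (hW.segment_subset ha.1 htW) ?_
    rw [subset_compl_iff_disjoint_right, disjoint_iff_inter_eq_empty]
    convert! ht.2
    exact Ia.symm
  have JB : JoinedIn (W \ s) b z := by
    apply JoinedIn.of_segment_subset
    rw [sdiff_eq]
    refine subset_inter (hW.segment_subset hb.1 htW) ?_
    rw [subset_compl_iff_disjoint_right, disjoint_iff_inter_eq_empty]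
    convert! ht.1
    exact Ib.symm
  exact JA.trans JB.symm

/-- Near a simple zero `b` of `P`: `‖z - b‖ ≤ K ‖P z‖`. -/
theorem simple_zero {P : ℂ → ℂ} {b : ℂ} (hP : DifferentiableAt ℂ P b) (hb : P b = 0)
    (hd : deriv P b ≠ 0) : ∃ K > 0, ∀ᶠ z in 𝓝 b, ‖z - b‖ ≤ K * ‖P z‖ := by
  have h := (hP.hasDerivAt.isTheta_sub hd).isBigO_symm
  obtain ⟨K, hK, hKb⟩ := h.exists_pos
  refine ⟨K, hK, ?_⟩
  have := hKb.bound
  rw [prod_pure, eventually_map] at this
  simpa only [hb, sub_zero] using this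

/-- Around a simple zero there is a ball in `U` containing no other zero. -/
theorem simple_zero_ball {U : Set ℂ} (hU : IsOpen U) {P : ℂ → ℂ} (hP : DifferentiableOn ℂ P U)
    {b : ℂ} (hbU : b ∈ U) (hb : P b = 0) (hd : deriv P b ≠ 0) :
    ∃ K > 0, ∃ r > 0, ball b r ⊆ U ∧ ∀ z ∈ ball b r, ‖z - b‖ ≤ K * ‖P z‖ := by
  obtain ⟨K, hK, h⟩ := simple_zero (hP.differentiableAt (hU.mem_nhds hbU)) hb hd
  obtain ⟨r, hr, h2⟩ := Metric.mem_nhds_iff.1 (inter_mem h (hU.mem_nhds hbU))
  exact ⟨K, hK, r, hr, fun z hz => (h2 hz).2, fun z hz => (h2 hz).1⟩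

theorem ball_ne {P : ℂ → ℂ} {b : ℂ} {K r : ℝ}
    (h : ∀ z ∈ ball b r, ‖z - b‖ ≤ K * ‖P z‖) {z : ℂ} (hz : z ∈ ball b r) (hne : z ≠ b) :
    P z ≠ 0 := by
  intro h0
  have := h z hz
  rw [h0, norm_zero, mul_zero] at this
  exact hne (sub_eq_zero.1 (norm_le_zero_iff.1 this))

open Classical in
/-- The extension of `B` over the zeros of `P`. -/
noncomputable def ext (P B : ℂ → ℂ) : ℂ → ℂ :=
  fun z => if P z = 0 then limUnder (𝓝[≠] z) B else B z

/-- If `|B| √|P|` is bounded off the zeros of `P`, and these are simple, then `B` extends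
holomorphically over the zeros. -/
theorem ext_differentiableOn {U : Set ℂ} (hU : IsOpen U) {P B : ℂ → ℂ}
    (hP : DifferentiableOn ℂ P U) (hs : ∀ b ∈ U, P b = 0 → deriv P b ≠ 0)
    (hB : DifferentiableOn ℂ B (U ∩ {z | P z ≠ 0})) {C : ℝ}
    (hC : ∀ z ∈ U ∩ {z | P z ≠ 0}, ‖B z‖ * Real.sqrt ‖P z‖ ≤ C) :
    DifferentiableOn ℂ (ext P B) U := by
  have hopen : IsOpen (U ∩ {z | P z ≠ 0}) :=
    hP.continuousOn.isOpen_inter_preimage hU isOpen_ne
  intro b hbU
  refine DifferentiableAt.differentiableWithinAt ?_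
  by_cases hb : P b = 0
  · obtain ⟨K, hK, r, hr, hrU, hr2⟩ := simple_zero_ball hU hP hbU hb (hs b hbU hb)
    have hsub : ball b r \ {b} ⊆ U ∩ {z | P z ≠ 0} := fun z hz =>
      ⟨hrU hz.1, ball_ne hr2 hz.1 hz.2⟩
    have hupd : DifferentiableOn ℂ (Function.update B b (limUnder (𝓝[≠] b) B)) (ball b r) := by
      refine Complex.differentiableOn_update_limUnder_of_isLittleO (ball_mem_nhds b hr)
        (hB.mono hsub) ?_
      have h1 : ∀ᶠ z in 𝓝[≠] b, ‖B z - B b‖ * ‖z - b‖ ≤
          (C * Real.sqrt K) * Real.sqrt ‖z - b‖ + ‖B b‖ * ‖z - b‖ := by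
        have : ∀ᶠ z in 𝓝[≠] b, z ∈ ball b r \ {b} :=
          inter_mem (mem_nhdsWithin_of_mem_nhds (ball_mem_nhds b hr)) self_mem_nhdsWithin
        filter_upwards [this] with z hz
        have h2 := hC z (hsub hz)
        have h3 := hr2 z hz.1
        have hpos : 0 < ‖z - b‖ := norm_pos_iff.2 (sub_ne_zero.2 hz.2)
        have h4 : Real.sqrt ‖z - b‖ ≤ Real.sqrt K * Real.sqrt ‖P z‖ := by
          rw [← Real.sqrt_mul hK.le]; exact Real.sqrt_le_sqrt h3
        have h5 : ‖B z‖ * ‖z - b‖ ≤ (C * Real.sqrt K) * Real.sqrt ‖z - b‖ := by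
          have e : ‖z - b‖ = Real.sqrt ‖z - b‖ * Real.sqrt ‖z - b‖ :=
            (Real.mul_self_sqrt hpos.le).symm
          calc ‖B z‖ * ‖z - b‖ = ‖B z‖ * (Real.sqrt ‖z - b‖ * Real.sqrt ‖z - b‖) := by rw [← e]
            _ ≤ ‖B z‖ * ((Real.sqrt K * Real.sqrt ‖P z‖) * Real.sqrt ‖z - b‖) := by gcongr
            _ = (‖B z‖ * Real.sqrt ‖P z‖) * (Real.sqrt K * Real.sqrt ‖z - b‖) := by ring
            _ ≤ C * (Real.sqrt K * Real.sqrt ‖z - b‖) := by gcongr
            _ = _ := by ring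
        calc ‖B z - B b‖ * ‖z - b‖ ≤ (‖B z‖ + ‖B b‖) * ‖z - b‖ := by gcongr; exact norm_sub_le _ _
          _ = ‖B z‖ * ‖z - b‖ + ‖B b‖ * ‖z - b‖ := by ring
          _ ≤ _ := by gcongr
      have h6 : Tendsto (fun z => (C * Real.sqrt K) * Real.sqrt ‖z - b‖ + ‖B b‖ * ‖z - b‖)
          (𝓝[≠] b) (𝓝 0) := by
        have : Continuous (fun z : ℂ => (C * Real.sqrt K) * Real.sqrt ‖z - b‖ + ‖B b‖ * ‖z - b‖) := by
          fun_prop
        have h := this.tendsto b
        simp only [sub_self, norm_zero, Real.sqrt_zero, mul_zero, add_zero] at h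
        exact h.mono_left nhdsWithin_le_nhds
      rw [Asymptotics.isLittleO_iff]
      intro c hc
      have h7 := h6.eventually (gt_mem_nhds hc)
      filter_upwards [h1, h7, self_mem_nhdsWithin] with z hz1 hz2 hz3
      have hpos : 0 < ‖z - b‖ := norm_pos_iff.2 (sub_ne_zero.2 hz3)
      rw [norm_inv, ← div_eq_mul_inv, le_div_iff₀ hpos]
      exact hz1.trans hz2.le
    have heq : ext P B =ᶠ[𝓝 b] Function.update B b (limUnder (𝓝[≠] b) B) := by
      filter_upwards [ball_mem_nhds b hr] with z hz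
      by_cases hzb : z = b
      · subst hzb; simp [ext, hb]
      · simp [ext, Function.update_of_ne hzb, ball_ne hr2 hz hzb]
    exact (hupd.differentiableAt (ball_mem_nhds b hr)).congr_of_eventuallyEq heq
  · have hmem : U ∩ {z | P z ≠ 0} ∈ 𝓝 b := hopen.mem_nhds ⟨hbU, hb⟩
    have heq : ext P B =ᶠ[𝓝 b] B := by
      filter_upwards [hmem] with z hz
      have : P z ≠ 0 := hz.2
      simp [ext, this]
    exact (hB.differentiableAt hmem).congr_of_eventuallyEq heq

/-- A continuous square root of a differentiable nonvanishing function is differentiable. -/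
theorem sqrt_differentiableAt {σ P : ℂ → ℂ} {z : ℂ} (hσ : ContinuousAt σ z)
    (h : ∀ᶠ w in 𝓝 z, σ w ^ 2 = P w) (hP : DifferentiableAt ℂ P z) (hne : P z ≠ 0) :
    DifferentiableAt ℂ σ z := by
  have hz : σ z ^ 2 = P z := h.self_of_nhds
  have hσz : σ z ≠ 0 := by
    intro h0; rw [h0] at hz; exact hne (by simpa using hz.symm)
  have h1 : Tendsto (fun w => (slope P z w) / (σ w + σ z)) (𝓝[≠] z) (𝓝 (deriv P z / (σ z + σ z))) := by
    refine Tendsto.div (hasDerivAt_iff_tendsto_slope.1 hP.hasDerivAt) ?_ ?_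
    · exact (hσ.tendsto.add_const _).mono_left nhdsWithin_le_nhds
    · rw [← two_mul]; exact mul_ne_zero two_ne_zero hσz
  have h2 : Tendsto (slope σ z) (𝓝[≠] z) (𝓝 (deriv P z / (σ z + σ z))) := by
    refine h1.congr' ?_
    have h3 : ∀ᶠ w in 𝓝[≠] z, σ w + σ z ≠ 0 := by
      have : Tendsto (fun w => σ w + σ z) (𝓝 z) (𝓝 (σ z + σ z)) := hσ.tendsto.add_const _
      have hne2 : σ z + σ z ≠ 0 := by rw [← two_mul]; exact mul_ne_zero two_ne_zero hσz
      exact (this.eventually_ne hne2).filter_mono nhdsWithin_le_nhds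
    filter_upwards [h3, h.filter_mono nhdsWithin_le_nhds] with w hw3 hw
    rw [slope_def_field, slope_def_field, div_div, ← hw, ← hz]
    rw [show σ w ^ 2 - σ z ^ 2 = (σ w - σ z) * (σ w + σ z) by ring, mul_div_mul_right _ _ hw3]
  exact (hasDerivAt_iff_tendsto_slope.2 h2).differentiableAt

/-- No continuous square root in a punctured neighbourhood of a simple zero. -/
theorem no_sqrt {U : Set ℂ} (hU : IsOpen U) {P : ℂ → ℂ} (hP : DifferentiableOn ℂ P U)
    {b : ℂ} (hbU : b ∈ U) (hb : P b = 0) (hd : deriv P b ≠ 0) :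
    ¬ ∃ σ : ℂ → ℂ, ContinuousOn σ (U ∩ {z | P z ≠ 0}) ∧
      ∀ z ∈ U ∩ {z | P z ≠ 0}, σ z ^ 2 = P z := by
  rintro ⟨σ, hσ, hσ2⟩
  have hopen : IsOpen (U ∩ {z | P z ≠ 0}) :=
    hP.continuousOn.isOpen_inter_preimage hU isOpen_ne
  obtain ⟨K, hK, r, hr, hrU, hr2⟩ := simple_zero_ball hU hP hbU hb hd
  have hsub : ball b r \ {b} ⊆ U ∩ {z | P z ≠ 0} := fun z hz =>
    ⟨hrU hz.1, ball_ne hr2 hz.1 hz.2⟩
  set τ : ℂ → ℂ := Function.update σ b 0 with hτ
  have hτ2 : ∀ z ∈ ball b r, τ z ^ 2 = P z := by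
    intro z hz
    by_cases hzb : z = b
    · subst hzb; simp [hτ, hb]
    · rw [hτ, Function.update_of_ne hzb]; exact hσ2 z (hsub ⟨hz, hzb⟩)
  have hdiff : ∀ z ∈ ball b r \ {b}, DifferentiableAt ℂ τ z := by
    intro z hz
    have hmem : U ∩ {z | P z ≠ 0} ∈ 𝓝 z := hopen.mem_nhds (hsub hz)
    have hev : τ =ᶠ[𝓝 z] σ := by
      have : {b}ᶜ ∈ 𝓝 z := isOpen_compl_singleton.mem_nhds hz.2
      filter_upwards [this] with w hw
      rw [hτ, Function.update_of_ne hw]
    refine DifferentiableAt.congr_of_eventuallyEq ?_ hev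
    refine sqrt_differentiableAt ((hσ z (hsub hz)).continuousAt hmem) ?_
      (hP.differentiableAt (hU.mem_nhds (hsub hz).1)) (hsub hz).2
    filter_upwards [hmem] with w hw using hσ2 w hw
  have hcont : ContinuousAt τ b := by
    have hPb : Tendsto P (𝓝 b) (𝓝 0) := by
      have := (hP.differentiableAt (hU.mem_nhds hbU)).continuousAt
      rw [ContinuousAt, hb] at this; exact this
    have hτb : τ b = 0 := by simp [hτ]
    rw [ContinuousAt, hτb]
    have h1 : Tendsto (fun z => τ z ^ 2) (𝓝 b) (𝓝 0) := by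
      refine hPb.congr' ?_
      filter_upwards [ball_mem_nhds b hr] with z hz using (hτ2 z hz).symm
    have h2 : Tendsto (fun z => Real.sqrt ‖τ z ^ 2‖) (𝓝 b) (𝓝 0) := by
      have := (Real.continuous_sqrt.tendsto 0).comp (tendsto_zero_iff_norm_tendsto_zero.1 h1)
      rw [Real.sqrt_zero] at this
      exact this
    rw [tendsto_zero_iff_norm_tendsto_zero]
    refine h2.congr fun z => ?_
    rw [norm_pow, Real.sqrt_sq (norm_nonneg _)]
  have hA : AnalyticAt ℂ τ b := by
    refine Complex.analyticAt_of_differentiable_on_punctured_nhds_of_continuousAt ?_ hcont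
    have : ∀ᶠ z in 𝓝[≠] b, z ∈ ball b r \ {b} :=
      inter_mem (mem_nhdsWithin_of_mem_nhds (ball_mem_nhds b hr)) self_mem_nhdsWithin
    filter_upwards [this] with z hz using hdiff z hz
  have hder : HasDerivAt (fun z => τ z ^ 2) (2 * τ b * deriv τ b) b := by
    have := hA.differentiableAt.hasDerivAt.fun_pow 2
    simpa using this
  have hev : P =ᶠ[𝓝 b] fun z => τ z ^ 2 := by
    filter_upwards [ball_mem_nhds b hr] with z hz using (hτ2 z hz).symm
  have := (hder.congr_of_eventuallyEq hev).deriv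
  rw [this] at hd
  apply hd
  simp [hτ]

end Pool.Agent.H32Cover
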