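import Mathlib

set_option autoImplicit false

/-!
Moebius maps of the disc and the pseudohyperbolic discs `Wt a t` (problem MP_9ef1f5_an).
-/

open Set Filter Topology Metric ComplexConjugate

namespace Pool.Agent.H32Cover

/-- The Moebius map of the disc sending `a` to `0`. -/
noncomputable def psi (a z : ℂ) : ℂ := (z - a) / (1 - conj a * z)

/-- The pseudohyperbolic disc around `a` in which `‖1 - conj a * z‖ ^ 2 < t * (1 - ‖z‖ ^ 2)`. -/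
def Wt (a : ℂ) (t : ℝ) : Set ℂ := {z | ‖1 - conj a * z‖ ^ 2 < t * (1 - ‖z‖ ^ 2)}

theorem key_identity (a z : ℂ) :
    ‖1 - conj a * z‖ ^ 2 - ‖z - a‖ ^ 2 = (1 - ‖a‖ ^ 2) * (1 - ‖z‖ ^ 2) := by
  simp only [Complex.sq_norm, Complex.normSq_apply, Complex.sub_re, Complex.sub_im,
    Complex.mul_re, Complex.mul_im, Complex.conj_re, Complex.conj_im, Complex.one_re,
    Complex.one_im]
  ring

theorem den_lower {a z : ℂ} (hz : ‖z‖ ≤ 1) : 1 - ‖a‖ ≤ ‖1 - conj a * z‖ := by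
  have h1 : ‖(1 : ℂ)‖ - ‖conj a * z‖ ≤ ‖1 - conj a * z‖ := norm_sub_norm_le _ _
  rw [norm_one, norm_mul, Complex.norm_conj] at h1
  nlinarith [norm_nonneg a, norm_nonneg z]

theorem den_lower' {a z : ℂ} (ha : ‖a‖ ≤ 1) : 1 - ‖z‖ ≤ ‖1 - conj a * z‖ := by
  have h1 : ‖(1 : ℂ)‖ - ‖conj a * z‖ ≤ ‖1 - conj a * z‖ := norm_sub_norm_le _ _
  rw [norm_one, norm_mul, Complex.norm_conj] at h1
  nlinarith [norm_nonneg a, norm_nonneg z]

theorem den_ne {a z : ℂ} (ha : ‖a‖ < 1) (hz : ‖z‖ ≤ 1) : 1 - conj a * z ≠ 0 := by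
  have := den_lower (a := a) hz
  intro h
  rw [h, norm_zero] at this
  linarith

theorem psi_mul {a z : ℂ} (h : 1 - conj a * z ≠ 0) :
    ‖psi a z‖ ^ 2 * ‖1 - conj a * z‖ ^ 2 = ‖z - a‖ ^ 2 := by
  rw [psi, norm_div, div_pow, div_mul_cancel₀]
  exact pow_ne_zero 2 (norm_ne_zero_iff.2 h)

theorem one_sub_psi {a z : ℂ} (h : 1 - conj a * z ≠ 0) :
    (1 - ‖psi a z‖ ^ 2) * ‖1 - conj a * z‖ ^ 2 = (1 - ‖a‖ ^ 2) * (1 - ‖z‖ ^ 2) := by
  rw [sub_mul, psi_mul h, one_mul, key_identity]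

theorem Wt_sub_ball {a : ℂ} {t : ℝ} (ht : 0 < t) : Wt a t ⊆ ball 0 1 := by
  intro z hz
  have h : ‖1 - conj a * z‖ ^ 2 < t * (1 - ‖z‖ ^ 2) := hz
  have h0 : 0 < t * (1 - ‖z‖ ^ 2) := lt_of_le_of_lt (sq_nonneg _) h
  have h1 : 0 < 1 - ‖z‖ ^ 2 := by
    by_contra hc
    have := mul_nonpos_of_nonneg_of_nonpos ht.le (not_lt.1 hc)
    linarith
  rw [mem_ball_zero_iff]
  nlinarith [norm_nonneg z]

theorem isOpen_Wt (a : ℂ) (t : ℝ) : IsOpen (Wt a t) :=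
  isOpen_lt (by fun_prop) (by fun_prop)

theorem sq_norm_convex (u v : ℂ) {s t : ℝ} (hs : 0 ≤ s) (ht : 0 ≤ t) (hst : s + t = 1) :
    ‖(s : ℂ) * u + (t : ℂ) * v‖ ^ 2 ≤ s * ‖u‖ ^ 2 + t * ‖v‖ ^ 2 := by
  have h1 : ‖(s : ℂ) * u + (t : ℂ) * v‖ ≤ s * ‖u‖ + t * ‖v‖ := by
    refine (norm_add_le _ _).trans ?_
    rw [norm_mul, norm_mul, Complex.norm_real, Complex.norm_real, Real.norm_of_nonneg hs,
      Real.norm_of_nonneg ht]
  have h2 : ‖(s : ℂ) * u + (t : ℂ) * v‖ ^ 2 ≤ (s * ‖u‖ + t * ‖v‖) ^ 2 := by gcongr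
  have ht' : t = 1 - s := by linarith
  subst ht'
  nlinarith [mul_nonneg (mul_nonneg hs ht) (sq_nonneg (‖u‖ - ‖v‖))]

theorem convex_Wt (a : ℂ) {t : ℝ} (ht : 0 < t) : Convex ℝ (Wt a t) := by
  intro x hx y hy p q hp hq hpq
  have hx' : ‖1 - conj a * x‖ ^ 2 < t * (1 - ‖x‖ ^ 2) := hx
  have hy' : ‖1 - conj a * y‖ ^ 2 < t * (1 - ‖y‖ ^ 2) := hy
  change ‖1 - conj a * (p • x + q • y)‖ ^ 2 < t * (1 - ‖p • x + q • y‖ ^ 2)
  have e1 : 1 - conj a * (p • x + q • y) =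
      (p : ℂ) * (1 - conj a * x) + (q : ℂ) * (1 - conj a * y) := by
    have : (1 : ℂ) = (p : ℂ) + (q : ℂ) := by rw [← Complex.ofReal_add, hpq, Complex.ofReal_one]
    simp only [Complex.real_smul]
    linear_combination this
  have e2 : p • x + q • y = (p : ℂ) * x + (q : ℂ) * y := by simp only [Complex.real_smul]
  have h1 := sq_norm_convex (1 - conj a * x) (1 - conj a * y) hp hq hpq
  have h2 := sq_norm_convex x y hp hq hpq
  rw [e1, e2]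
  have h3 : p * ‖1 - conj a * x‖ ^ 2 + q * ‖1 - conj a * y‖ ^ 2 <
      p * (t * (1 - ‖x‖ ^ 2)) + q * (t * (1 - ‖y‖ ^ 2)) := by
    rcases hp.eq_or_lt with hp0 | hp0
    · have hq1 : q = 1 := by linarith
      subst hq1; rw [← hp0]; linarith
    · nlinarith [mul_nonneg hq (sub_nonneg.2 hy'.le), mul_pos hp0 (sub_pos.2 hx')]
  have h4 : t * ‖(p : ℂ) * x + (q : ℂ) * y‖ ^ 2 ≤ t * (p * ‖x‖ ^ 2 + q * ‖y‖ ^ 2) := by gcongr
  have h5 : p * (t * (1 - ‖x‖ ^ 2)) + q * (t * (1 - ‖y‖ ^ 2)) =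
      t * (p + q) - t * (p * ‖x‖ ^ 2 + q * ‖y‖ ^ 2) := by ring
  rw [hpq, mul_one] at h5
  linarith

theorem half_sub {a : ℂ} (ha : ‖a‖ < 1) : ball (0 : ℂ) (1 / 2) ⊆ Wt a 4 := by
  intro z hz
  rw [mem_ball_zero_iff] at hz
  change ‖1 - conj a * z‖ ^ 2 < 4 * (1 - ‖z‖ ^ 2)
  have h1 : ‖1 - conj a * z‖ ≤ ‖(1 : ℂ)‖ + ‖conj a * z‖ := norm_sub_le _ _
  rw [norm_one, norm_mul, Complex.norm_conj] at h1
  have h2 : ‖1 - conj a * z‖ ≤ 3 / 2 := by nlinarith [norm_nonneg a, norm_nonneg z]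
  have h3 : ‖1 - conj a * z‖ ^ 2 ≤ (3 / 2) ^ 2 := by gcongr
  nlinarith [norm_nonneg z]

theorem psi_lt_one {a z : ℂ} (ha : ‖a‖ < 1) (hz : ‖z‖ < 1) : ‖psi a z‖ < 1 := by
  have hd := den_ne ha hz.le
  have h := one_sub_psi hd
  have h1 : 0 < (1 - ‖a‖ ^ 2) * (1 - ‖z‖ ^ 2) := by
    apply mul_pos <;> nlinarith [norm_nonneg a, norm_nonneg z]
  have h2 : 0 < ‖1 - conj a * z‖ ^ 2 := pow_pos (norm_pos_iff.2 hd) 2
  have h3 : 0 < 1 - ‖psi a z‖ ^ 2 := by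
    by_contra hc
    have := mul_nonpos_of_nonpos_of_nonneg (not_lt.1 hc) h2.le
    linarith
  nlinarith [norm_nonneg (psi a z)]

theorem psi_hasDerivAt {a z : ℂ} (h : 1 - conj a * z ≠ 0) :
    HasDerivAt (psi a) ((1 - conj a * a) / (1 - conj a * z) ^ 2) z := by
  have h1 : HasDerivAt (fun z : ℂ => z - a) 1 z := (hasDerivAt_id z).sub_const a
  have h2 : HasDerivAt (fun z : ℂ => 1 - conj a * z) (-(conj a)) z := by
    simpa using ((hasDerivAt_id z).const_mul (conj a)).const_sub 1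
  have h3 := h1.fun_div h2 h
  refine h3.congr_deriv ?_
  congr 1
  ring

theorem conj_mul_self_ne {a : ℂ} (ha : ‖a‖ < 1) : (1 : ℂ) - conj a * a ≠ 0 := by
  rw [Complex.conj_mul', sub_ne_zero]
  intro h
  have h2 : (1 : ℝ) = ‖a‖ ^ 2 := by exact_mod_cast h
  nlinarith [norm_nonneg a]

/-- The function whose square root defines the double cover. -/
noncomputable def PP (a : ℂ) (n : ℕ) (z : ℂ) : ℂ := psi a z ^ (2 * n) - (1 / 4) ^ (2 * n)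

theorem PP_hasDerivAt {a z : ℂ} (n : ℕ) (h : 1 - conj a * z ≠ 0) :
    HasDerivAt (PP a n) (((2 * n : ℕ) : ℂ) * psi a z ^ (2 * n - 1) *
      ((1 - conj a * a) / (1 - conj a * z) ^ 2)) z :=
  ((psi_hasDerivAt h).fun_pow (2 * n)).sub_const _

theorem PP_differentiableOn {a : ℂ} (ha : ‖a‖ < 1) (n : ℕ) :
    DifferentiableOn ℂ (PP a n) (ball 0 1) := fun _ hz =>
  (PP_hasDerivAt n (den_ne ha (mem_ball_zero_iff.1 hz).le)).differentiableAt.differentiableWithinAt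

theorem PP_simple {a z : ℂ} (ha : ‖a‖ < 1) (hz : ‖z‖ < 1) {n : ℕ} (hn : 1 ≤ n)
    (h0 : PP a n z = 0) : deriv (PP a n) z ≠ 0 := by
  have hd := den_ne ha hz.le
  rw [(PP_hasDerivAt n hd).deriv]
  have hpsi : psi a z ≠ 0 := by
    intro h
    rw [PP, h, zero_pow (by omega), zero_sub, neg_eq_zero] at h0
    exact pow_ne_zero _ (by norm_num) h0
  refine mul_ne_zero (mul_ne_zero ?_ (pow_ne_zero _ hpsi)) (div_ne_zero (conj_mul_self_ne ha)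
    (pow_ne_zero _ hd))
  exact_mod_cast (by omega : 2 * n ≠ 0)

theorem PP_bdd {a z : ℂ} (ha : ‖a‖ < 1) (hz : ‖z‖ < 1) (n : ℕ) : ‖PP a n z‖ ≤ 2 := by
  have h1 : ‖psi a z ^ (2 * n)‖ ≤ 1 := by
    rw [norm_pow]; exact pow_le_one₀ (norm_nonneg _) (psi_lt_one ha hz).le
  have h2 : ‖((1 : ℂ) / 4) ^ (2 * n)‖ ≤ 1 := by
    rw [norm_pow]; exact pow_le_one₀ (norm_nonneg _) (by norm_num)
  calc ‖PP a n z‖ ≤ ‖psi a z ^ (2 * n)‖ + ‖((1 : ℂ) / 4) ^ (2 * n)‖ := norm_sub_le _ _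
    _ ≤ 2 := by linarith

/-- A zero of `PP a n` in `Wt a 4`. -/
theorem exists_zero {a : ℂ} (ha : ‖a‖ < 1) (n : ℕ) : ∃ b ∈ Wt a 4, PP a n b = 0 := by
  have hd : (1 : ℂ) + conj a * (1 / 4) ≠ 0 := by
    have := den_ne (a := -a) (z := 1 / 4) (by simpa using ha) (by norm_num)
    simpa using this
  set b : ℂ := (1 / 4 + a) / (1 + conj a * (1 / 4)) with hb
  have hb' : b * (1 + conj a * (1 / 4)) = 1 / 4 + a := by rw [hb, div_mul_cancel₀ _ hd]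
  -- `b = psi (-a) (1/4)`
  have hbn : ‖b‖ < 1 := by
    have h := psi_lt_one (a := -a) (z := 1 / 4) (by simpa using ha) (by norm_num)
    have e : psi (-a) (1 / 4) = b := by
      rw [psi, hb]; congr 1 <;> simp
    rwa [e] at h
  have hd2 := den_ne ha hbn.le
  have hpsi : psi a b = 1 / 4 := by
    rw [psi, div_eq_iff hd2]
    linear_combination hb'
  refine ⟨b, ?_, ?_⟩
  · have h := one_sub_psi hd2
    rw [hpsi] at h
    have h4 : ‖(1 / 4 : ℂ)‖ = 1 / 4 := by norm_num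
    rw [h4] at h
    change ‖1 - conj a * b‖ ^ 2 < 4 * (1 - ‖b‖ ^ 2)
    have h5 : 0 < 1 - ‖b‖ ^ 2 := by nlinarith [norm_nonneg b]
    have h6 : (1 - ‖a‖ ^ 2) * (1 - ‖b‖ ^ 2) ≤ 1 * (1 - ‖b‖ ^ 2) := by
      gcongr; nlinarith [norm_nonneg a]
    nlinarith
  · rw [PP, hpsi, sub_self]

/-- Separation of the pseudohyperbolic discs. -/
theorem sep {u v : ℂ} (hu : ‖u‖ = 1) (hv : ‖v‖ = 1) {e f d : ℝ} (he : 0 < e) (he1 : e < 1)
    (hf : 0 < f) (hf1 : f < 1) (hd : 0 < d) (hd1 : d ≤ 1) (hed : e = (d / 16) ^ 2)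
    (huv : d ≤ ‖u - v‖) {z : ℂ} (hz : z ∈ Wt ((1 - f : ℝ) * v) 4) :
    1 / 4 < ‖psi ((1 - e : ℝ) * u) z‖ := by
  by_contra hc
  have hc' : ‖psi ((1 - e : ℝ) * u) z‖ ≤ 1 / 4 := not_lt.1 hc
  have hz1 : ‖z‖ < 1 := mem_ball_zero_iff.1 (Wt_sub_ball (by norm_num) hz)
  have hz0 : 0 ≤ ‖z‖ := norm_nonneg z
  set a : ℂ := (1 - e : ℝ) * u with ha
  set b : ℂ := (1 - f : ℝ) * v with hb
  have han : ‖a‖ = 1 - e := by
    rw [ha, norm_mul, Complex.norm_real, hu, mul_one, Real.norm_of_nonneg (by linarith)]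
  have hbn : ‖b‖ = 1 - f := by
    rw [hb, norm_mul, Complex.norm_real, hv, mul_one, Real.norm_of_nonneg (by linarith)]
  have hY : ‖1 - conj b * z‖ ^ 2 < 4 * (1 - ‖z‖ ^ 2) := hz
  have hda : 1 - conj a * z ≠ 0 := den_ne (by rw [han]; linarith) hz1.le
  have hX := one_sub_psi hda
  have hXe : e ≤ ‖1 - conj a * z‖ := by
    have := den_lower (a := a) hz1.le; rw [han] at this; linarith
  have hXz : 1 - ‖z‖ ≤ ‖1 - conj a * z‖ := den_lower' (by rw [han]; linarith)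
  have hYf : f ≤ ‖1 - conj b * z‖ := by
    have := den_lower (a := b) hz1.le; rw [hbn] at this; linarith
  set X := ‖1 - conj a * z‖ with hXdef
  set Y := ‖1 - conj b * z‖ with hYdef
  have hY' : Y ^ 2 < 4 * (1 - ‖z‖ ^ 2) := hY
  have hXpos : 0 < X := by linarith
  have hYpos : 0 < Y := by linarith
  -- `‖u - z‖ ≤ 2 X`, `‖v - z‖ ≤ 2 Y`
  have gen : ∀ (w : ℂ) (g : ℝ), ‖w‖ = 1 → 0 < g → g < 1 →
      ‖w - z‖ ≤ ‖1 - conj ((1 - g : ℝ) * w) * z‖ + g := by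
    intro w g hw hg hg1
    have h1 : ‖w - z‖ = ‖1 - conj w * z‖ := by
      have : ‖conj w * (w - z)‖ = ‖w - z‖ := by rw [norm_mul, Complex.norm_conj, hw, one_mul]
      rw [← this, mul_sub, Complex.conj_mul', hw]
      simp
    rw [h1]
    have h2 : 1 - conj w * z = (1 - conj ((1 - g : ℝ) * w) * z) + (-(g : ℂ) * (conj w * z)) := by
      simp only [map_mul, map_sub, map_one, Complex.conj_ofReal, Complex.ofReal_sub,
        Complex.ofReal_one]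
      ring
    rw [h2]
    refine (norm_add_le _ _).trans ?_
    gcongr
    rw [norm_mul, norm_neg, Complex.norm_real, Real.norm_of_nonneg hg.le, norm_mul,
      Complex.norm_conj, hw, one_mul]
    nlinarith
  have hu2 : ‖u - z‖ ≤ 2 * X := by
    have := gen u e hu he he1
    linarith
  have hv2 : ‖v - z‖ ≤ 2 * Y := by
    have := gen v f hv hf hf1
    linarith
  have huv2 : d ≤ 2 * X + 2 * Y := by
    have : ‖u - v‖ ≤ ‖u - z‖ + ‖v - z‖ := by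
      calc ‖u - v‖ = ‖(u - z) - (v - z)‖ := by congr 1; ring
        _ ≤ _ := norm_sub_le _ _
    linarith
  -- bounds on `X` and `Y`
  clear gen hu2 hv2 hY huv hz
  have hY : Y ^ 2 < 4 * (1 - ‖z‖ ^ 2) := hY'
  have hpsi0 : 0 ≤ ‖psi a z‖ := norm_nonneg _
  have hpsi2 : ‖psi a z‖ ^ 2 ≤ 1 / 16 := by
    calc ‖psi a z‖ ^ 2 ≤ (1 / 4) ^ 2 := by gcongr
      _ = 1 / 16 := by norm_num
  have hX2 : 15 / 16 * X ^ 2 ≤ (1 - ‖a‖ ^ 2) * (1 - ‖z‖ ^ 2) := by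
    rw [← hX]
    exact mul_le_mul_of_nonneg_right (by linarith) (sq_nonneg X)
  have hde : 1 - ‖a‖ ^ 2 ≤ 2 * e := by
    rw [han]; have := sq_nonneg e; linarith [show (1 - e) ^ 2 = 1 - 2 * e + e ^ 2 by ring]
  have hs : 1 - ‖z‖ ^ 2 ≤ 2 * X := by
    have h1 : 1 - ‖z‖ ^ 2 = (1 - ‖z‖) * (1 + ‖z‖) := by ring
    have h2 : (1 - ‖z‖) * (1 + ‖z‖) ≤ X * 2 := by
      apply mul_le_mul hXz (by linarith) (by linarith) hXpos.le
    linarith
  have hs0 : 0 ≤ 1 - ‖z‖ ^ 2 := by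
    have : ‖z‖ ^ 2 ≤ 1 := pow_le_one₀ hz0 hz1.le
    linarith
  have hX3 : 15 / 16 * X ^ 2 ≤ (2 * e) * (2 * X) := by
    refine hX2.trans ?_
    apply mul_le_mul hde hs hs0 (by linarith)
  have hX4 : X ≤ 64 / 15 * e := by
    have h1 : X * (15 / 16 * X) ≤ X * (4 * e) := by
      have e1 : X * (15 / 16 * X) = 15 / 16 * X ^ 2 := by ring
      have e2 : X * (4 * e) = (2 * e) * (2 * X) := by ring
      rw [e1, e2]; exact hX3
    have := le_of_mul_le_mul_left h1 hXpos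
    linarith
  have hY2 : Y ^ 2 ≤ (6 * (d / 16)) ^ 2 := by
    have h8 : Y ^ 2 ≤ 8 * X := by linarith
    have h7 : 8 * X ≤ 36 * e := by linarith
    calc Y ^ 2 ≤ 36 * e := h8.trans h7
      _ = _ := by rw [hed]; ring
  have hY3 : Y ≤ 6 * (d / 16) := by
    exact (le_abs_self Y).trans (abs_le_of_sq_le_sq hY2 (by positivity))
  have hX5 : X ≤ 64 / 15 * (d / 16) ^ 2 := by rw [← hed]; exact hX4
  have hdd : d ^ 2 ≤ d := by
    rw [sq]; exact mul_le_of_le_one_left hd.le hd1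
  have hX6 : X ≤ 64 / 15 * (d / 256) := by
    refine hX5.trans ?_
    have : (d / 16) ^ 2 = d ^ 2 / 256 := by ring
    rw [this]
    gcongr
  linarith

end Pool.Agent.H32Cover
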