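import Mathlib
import Pool.Agent.Lib.MP_9ef1f5_an_helper27.CoverData
import Pool.Agent.Lib.MP_9ef1f5_an_helper32.General
import Pool.Agent.Lib.MP_9ef1f5_an_helper32.Mobius

set_option autoImplicit false

/-!
An instance of `Pool.Agent.H27.CoverData` (problem MP_9ef1f5_an).
-/

open Set Filter Topology Metric ComplexConjugate

namespace Pool.Agent.H32Cover

/-- The distinct points `(k + i) / (k - i)` of the unit circle. -/
noncomputable def uu (k : ℕ) : ℂ := ((k : ℂ) + Complex.I) / ((k : ℂ) - Complex.I)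

theorem sub_I_ne (k : ℕ) : (k : ℂ) - Complex.I ≠ 0 := by
  intro h
  have := congrArg Complex.im h
  simp at this

theorem norm_sub_I_le (k : ℕ) : ‖(k : ℂ) - Complex.I‖ ≤ k + 1 := by
  refine (norm_sub_le _ _).trans ?_
  rw [Complex.norm_I, Complex.norm_natCast]

theorem norm_uu (k : ℕ) : ‖uu k‖ = 1 := by
  rw [uu, norm_div, div_eq_one_iff_eq (norm_ne_zero_iff.2 (sub_I_ne k))]
  rw [← Complex.norm_conj]
  simp [sub_eq_add_neg]

/-- The lower bound of the distances of `uu j` to the other points. -/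
noncomputable def dd (j : ℕ) : ℝ := 2 / ((j + 1) * (j + 2))

theorem dd_pos (j : ℕ) : 0 < dd j := by unfold dd; positivity

theorem dd_le (j : ℕ) : dd j ≤ 1 := by
  unfold dd
  rw [div_le_one (by positivity)]
  have : (0 : ℝ) ≤ j := Nat.cast_nonneg j
  nlinarith

theorem uu_sep {j k : ℕ} (h : j ≠ k) : dd j ≤ ‖uu j - uu k‖ := by
  have e : uu j - uu k = (2 * Complex.I * ((k : ℂ) - j)) /
      (((j : ℂ) - Complex.I) * ((k : ℂ) - Complex.I)) := by
    rw [uu, uu, div_sub_div _ _ (sub_I_ne j) (sub_I_ne k)]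
    congr 1
    ring
  have hD : ‖(k : ℂ) - j‖ = |(k : ℝ) - j| := by
    rw [← Complex.ofReal_natCast, ← Complex.ofReal_natCast, ← Complex.ofReal_sub,
      Complex.norm_real, Real.norm_eq_abs]
  have h1 : (1 : ℝ) ≤ |(k : ℝ) - j| := by
    have : (1 : ℤ) ≤ |(k : ℤ) - j| := Int.one_le_abs (by omega)
    exact_mod_cast this
  have h2 : (k : ℝ) + 1 ≤ |(k : ℝ) - j| * (j + 2) := by
    have h3 : (k : ℝ) - j ≤ |(k : ℝ) - j| := le_abs_self _
    have h4 : (0 : ℝ) ≤ j := Nat.cast_nonneg j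
    nlinarith
  rw [e, norm_div, norm_mul, norm_mul, norm_mul, Complex.norm_I, hD]
  have h5 : ‖(2 : ℂ)‖ = 2 := by norm_num
  rw [h5, mul_one, dd]
  have hj : 0 < ‖(j : ℂ) - Complex.I‖ := norm_pos_iff.2 (sub_I_ne j)
  have hk : 0 < ‖(k : ℂ) - Complex.I‖ := norm_pos_iff.2 (sub_I_ne k)
  rw [div_le_div_iff₀ (by positivity) (by positivity)]
  have h6 : ‖(j : ℂ) - Complex.I‖ * ‖(k : ℂ) - Complex.I‖ ≤ (j + 1) * (|(k : ℝ) - j| * (j + 2)) := by
    apply mul_le_mul (norm_sub_I_le j) ((norm_sub_I_le k).trans h2) hk.le (by positivity)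
  nlinarith

/-- The distances `1 - |a k|`. -/
noncomputable def ee (k : ℕ) : ℝ := (dd k / 16) ^ 2

theorem ee_pos (k : ℕ) : 0 < ee k := by have := dd_pos k; unfold ee; positivity

theorem ee_le (k : ℕ) : ee k ≤ 1 / 256 := by
  have h1 := dd_pos k
  have h2 := dd_le k
  unfold ee
  calc (dd k / 16) ^ 2 ≤ (1 / 16) ^ 2 := by gcongr
    _ = _ := by norm_num

/-- The centres. -/
noncomputable def aa (k : ℕ) : ℂ := (1 - ee k : ℝ) * uu k

theorem norm_aa (k : ℕ) : ‖aa k‖ = 1 - ee k := by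
  rw [aa, norm_mul, Complex.norm_real, norm_uu, mul_one,
    Real.norm_of_nonneg (by have := ee_le k; linarith)]

theorem aa_lt (k : ℕ) : ‖aa k‖ < 1 := by rw [norm_aa]; have := ee_pos k; linarith

theorem aa_gt (k : ℕ) : 1 / 4 < ‖aa k‖ := by rw [norm_aa]; have := ee_le k; linarith

theorem aa_sep {j k : ℕ} (h : j ≠ k) {z : ℂ} (hz : z ∈ Wt (aa k) 4) :
    1 / 4 < ‖psi (aa j) z‖ :=
  sep (norm_uu j) (norm_uu k) (ee_pos j) (by have := ee_le j; linarith) (ee_pos k)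
    (by have := ee_le k; linarith) (dd_pos j) (dd_le j) rfl (uu_sep h) hz

/-- The exponents. -/
theorem exists_exponent (k : ℕ) : ∃ n : ℕ,
    (‖aa k‖ ^ 2) ^ n + (1 / 16 : ℝ) ^ n ≤
      (1 / 4) ^ k * (((1 + ‖aa k‖ ^ 2) / 2) ^ n - (1 / 16 : ℝ) ^ n) := by
  set x := ‖aa k‖ ^ 2 with hx
  set r := (1 + x) / 2 with hr
  have hx0 : 0 ≤ x := sq_nonneg _
  have hx1 : x < 1 := by
    have h1 := aa_lt k; have h2 := norm_nonneg (aa k)
    rw [hx]; nlinarith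
  have hr0 : 0 < r := by rw [hr]; linarith
  have hxr : x < r := by rw [hr]; linarith
  have hyr : (1 / 16 : ℝ) < r := by rw [hr]; linarith
  have hδ : (0 : ℝ) < (1 / 4) ^ k / 3 := by positivity
  have h1 : Tendsto (fun n : ℕ => (x / r) ^ n) atTop (𝓝 0) :=
    tendsto_pow_atTop_nhds_zero_of_lt_one (by positivity) ((div_lt_one hr0).2 hxr)
  have h2 : Tendsto (fun n : ℕ => ((1 / 16) / r) ^ n) atTop (𝓝 0) :=
    tendsto_pow_atTop_nhds_zero_of_lt_one (by positivity) ((div_lt_one hr0).2 hyr)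
  obtain ⟨n, hn1, hn2⟩ := ((h1.eventually (gt_mem_nhds hδ)).and
    (h2.eventually (gt_mem_nhds hδ))).exists
  refine ⟨n, ?_⟩
  have hrn : 0 < r ^ n := pow_pos hr0 n
  rw [div_pow, div_lt_iff₀ hrn] at hn1 hn2
  have h4 : ((1 : ℝ) / 4) ^ k ≤ 1 := pow_le_one₀ (by norm_num) (by norm_num)
  have h4' : (0 : ℝ) < (1 / 4) ^ k := by positivity
  have h5 : (1 / 4 : ℝ) ^ k * (1 / 16 : ℝ) ^ n ≤ 1 * ((1 / 4) ^ k / 3 * r ^ n) := by
    apply mul_le_mul h4 hn2.le (by positivity) (by norm_num)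
  rw [mul_sub]
  linarith

/-- A choice of the exponents. -/
noncomputable def nn (k : ℕ) : ℕ := (exists_exponent k).choose

theorem nn_spec (k : ℕ) : (‖aa k‖ ^ 2) ^ nn k + (1 / 16 : ℝ) ^ nn k ≤
      (1 / 4) ^ k * (((1 + ‖aa k‖ ^ 2) / 2) ^ nn k - (1 / 16 : ℝ) ^ nn k) :=
  (exists_exponent k).choose_spec

theorem nn_pos (k : ℕ) : 1 ≤ nn k := by
  by_contra h
  have h0 : nn k = 0 := by omega
  have := nn_spec k
  rw [h0] at this
  norm_num at this

theorem quarter_pow (n : ℕ) : ‖((1 : ℂ) / 4) ^ (2 * n)‖ = (1 / 16 : ℝ) ^ n := by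
  rw [norm_pow, pow_mul]; norm_num

/-- A holomorphic square root of `PP a n` where `|psi a| > 1/4`. -/
noncomputable def ss (a : ℂ) (n : ℕ) (z : ℂ) : ℂ :=
  psi a z ^ n * (1 - ((1 / 4) / psi a z) ^ (2 * n)) ^ (1 / 2 : ℂ)

theorem slit {w : ℂ} {n : ℕ} (hn : 1 ≤ n) (hw : 1 / 4 < ‖w‖) :
    1 - ((1 / 4) / w) ^ (2 * n) ∈ Complex.slitPlane := by
  left
  have h1 : ‖((1 / 4) / w) ^ (2 * n)‖ < 1 := by
    rw [norm_pow]
    refine pow_lt_one₀ (norm_nonneg _) ?_ (by omega)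
    rw [norm_div, div_lt_one (by linarith)]
    have : ‖(1 / 4 : ℂ)‖ = 1 / 4 := by norm_num
    rw [this]; exact hw
  have h2 := (Complex.re_le_norm (((1 / 4) / w) ^ (2 * n))).trans_lt h1
  rw [Complex.sub_re, Complex.one_re]
  linarith

theorem ss_sq {a z : ℂ} {n : ℕ} (h : 1 / 4 < ‖psi a z‖) :
    ss a n z ^ 2 = PP a n z := by
  have hne : psi a z ≠ 0 := by
    intro h0; rw [h0, norm_zero] at h; linarith
  rw [ss, mul_pow, ← Complex.cpow_nat_mul]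
  have : ((2 : ℕ) : ℂ) * (1 / 2) = 1 := by norm_num
  rw [this, Complex.cpow_one, PP, ← pow_mul, mul_comm n 2, mul_sub, mul_one, div_pow,
    mul_div_cancel₀ _ (pow_ne_zero _ hne)]

theorem PP_ne {a z : ℂ} {n : ℕ} (hn : 1 ≤ n) (h : 1 / 4 < ‖psi a z‖) : PP a n z ≠ 0 := by
  intro h0
  rw [PP, sub_eq_zero] at h0
  have h1 : ‖psi a z‖ ^ (2 * n) = (1 / 4) ^ (2 * n) := by
    rw [← norm_pow, h0, norm_pow]; norm_num
  have h2 := (pow_left_inj₀ (norm_nonneg _) (by norm_num) (by omega)).1 h1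
  rw [h2] at h
  exact lt_irrefl _ h

theorem ss_differentiableAt {a z : ℂ} {n : ℕ} (hn : 1 ≤ n) (ha : ‖a‖ < 1) (hz : ‖z‖ < 1)
    (h : 1 / 4 < ‖psi a z‖) : DifferentiableAt ℂ (ss a n) z := by
  have hne : psi a z ≠ 0 := by
    intro h0; rw [h0, norm_zero] at h; linarith
  have hd : DifferentiableAt ℂ (psi a) z := (psi_hasDerivAt (den_ne ha hz.le)).differentiableAt
  unfold ss
  refine (hd.fun_pow n).fun_mul ?_
  refine DifferentiableAt.cpow_const ?_ ?_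
  · exact (differentiableAt_const _).fun_sub
      (((differentiableAt_const _).fun_div hd hne).fun_pow (2 * n))
  · exact slit hn h

theorem frontier_sub {a : ℂ} {t : ℝ} :
    frontier (Wt a t) ⊆ {z | ‖1 - conj a * z‖ ^ 2 = t * (1 - ‖z‖ ^ 2)} :=
  frontier_lt_subset_eq (by fun_prop) (by fun_prop)

theorem frontier_norm {a z : ℂ} (ha : ‖a‖ < 1) (hz : z ∈ frontier (Wt a 2)) :
    ‖z‖ < 1 ∧ ‖psi a z‖ ^ 2 = (1 + ‖a‖ ^ 2) / 2 := by
  have h : ‖1 - conj a * z‖ ^ 2 = 2 * (1 - ‖z‖ ^ 2) := frontier_sub hz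
  have hz1 : ‖z‖ ≤ 1 := by
    nlinarith [norm_nonneg z, sq_nonneg ‖1 - conj a * z‖]
  have hd := den_ne ha hz1
  have hpos : 0 < ‖1 - conj a * z‖ ^ 2 := pow_pos (norm_pos_iff.2 hd) 2
  have hz2 : ‖z‖ < 1 := by nlinarith [norm_nonneg z]
  refine ⟨hz2, ?_⟩
  have h1 := one_sub_psi hd
  rw [h] at h1
  have h2 : 0 < 1 - ‖z‖ ^ 2 := by linarith
  have h3 : (1 - ‖psi a z‖ ^ 2) * 2 = 1 - ‖a‖ ^ 2 := by
    have : ((1 - ‖psi a z‖ ^ 2) * 2) * (1 - ‖z‖ ^ 2) = (1 - ‖a‖ ^ 2) * (1 - ‖z‖ ^ 2) := by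
      linarith
    exact mul_right_cancel₀ h2.ne' this
  linarith

theorem closure_sub {a : ℂ} (ha : ‖a‖ < 1) : closure (Wt a 2) ⊆ Wt a 4 := by
  intro z hz
  rw [closure_eq_self_union_frontier] at hz
  rcases hz with hz | hz
  · have h1 : ‖1 - conj a * z‖ ^ 2 < 2 * (1 - ‖z‖ ^ 2) := hz
    have h2 := sq_nonneg ‖1 - conj a * z‖
    change ‖1 - conj a * z‖ ^ 2 < 4 * (1 - ‖z‖ ^ 2)
    linarith
  · have h1 : ‖1 - conj a * z‖ ^ 2 = 2 * (1 - ‖z‖ ^ 2) := frontier_sub hz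
    have h2 := (frontier_norm ha hz).1
    change ‖1 - conj a * z‖ ^ 2 < 4 * (1 - ‖z‖ ^ 2)
    nlinarith [norm_nonneg z]

theorem PP_zero_norm (k : ℕ) : ‖PP (aa k) (nn k) 0‖ ≤
    (‖aa k‖ ^ 2) ^ nn k + (1 / 16 : ℝ) ^ nn k := by
  have h : psi (aa k) 0 = - aa k := by simp [psi]
  rw [PP, h]
  refine (norm_sub_le _ _).trans ?_
  rw [quarter_pow, norm_pow, norm_neg, pow_mul]

theorem est_aux (k : ℕ) (B : ℂ → ℂ)
    (hB : DifferentiableOn ℂ B (Wt (aa k) 4 ∩ {z | PP (aa k) (nn k) z ≠ 0})) (C : ℝ)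
    (hC : ∀ z ∈ Wt (aa k) 4 ∩ {z | PP (aa k) (nn k) z ≠ 0},
      ‖B z‖ * Real.sqrt ‖PP (aa k) (nn k) z‖ ≤ C) :
    ‖B 0‖ * Real.sqrt ‖PP (aa k) (nn k) 0‖ ≤ C * (1 / 2) ^ k := by
  set P := PP (aa k) (nn k) with hP
  have ha := aa_lt k
  have h0 : (0 : ℂ) ∈ Wt (aa k) 4 := half_sub ha (by simp)
  have hn := nn_pos k
  have hP0 : P 0 ≠ 0 := by
    refine PP_ne hn ?_
    have h : psi (aa k) 0 = - aa k := by simp [psi]
    rw [h, norm_neg]; exact aa_gt k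
  have hsub := Wt_sub_ball (a := aa k) (t := 4) (by norm_num)
  have hPd : DifferentiableOn ℂ P (Wt (aa k) 4) := (PP_differentiableOn ha (nn k)).mono hsub
  have hE := ext_differentiableOn (isOpen_Wt (aa k) 4) hPd
    (fun b hb hb0 => PP_simple ha (mem_ball_zero_iff.1 (hsub hb)) hn hb0) hB hC
  set m : ℝ := ((1 + ‖aa k‖ ^ 2) / 2) ^ nn k - (1 / 16 : ℝ) ^ nn k with hm
  have hspec := nn_spec k
  rw [← hm] at hspec
  have hmpos : 0 < m := by
    have h1 : 0 < (‖aa k‖ ^ 2) ^ nn k + (1 / 16 : ℝ) ^ nn k := by positivity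
    have h2 : (0 : ℝ) < (1 / 4) ^ k := by positivity
    exact pos_of_mul_pos_right (h1.trans_le hspec) h2.le
  have hC0 : 0 ≤ C := le_trans (by positivity) (hC 0 ⟨h0, hP0⟩)
  have hfr : ∀ z ∈ frontier (Wt (aa k) 2), ‖ext P B z‖ ≤ C / Real.sqrt m := by
    intro z hz
    obtain ⟨hz1, hz2⟩ := frontier_norm ha hz
    have hz4 : z ∈ Wt (aa k) 4 := closure_sub ha (frontier_subset_closure hz)
    have hPm : m ≤ ‖P z‖ := by
      have h1 : ‖psi (aa k) z ^ (2 * nn k)‖ - ‖((1 : ℂ) / 4) ^ (2 * nn k)‖ ≤ ‖P z‖ :=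
        norm_sub_norm_le _ _
      rw [quarter_pow, norm_pow, pow_mul, hz2] at h1
      exact h1
    have hPz : P z ≠ 0 := norm_pos_iff.1 (hmpos.trans_le hPm)
    have h2 := hC z ⟨hz4, hPz⟩
    have h3 : ext P B z = B z := by simp [ext, hPz]
    rw [h3, le_div_iff₀ (Real.sqrt_pos.2 hmpos)]
    calc ‖B z‖ * Real.sqrt m ≤ ‖B z‖ * Real.sqrt ‖P z‖ := by gcongr
      _ ≤ C := h2
  have hbdd : Bornology.IsBounded (Wt (aa k) 2) :=
    isBounded_ball.subset (Wt_sub_ball (by norm_num))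
  have hdc : DiffContOnCl ℂ (ext P B) (Wt (aa k) 2) :=
    (hE.mono (closure_sub ha)).diffContOnCl
  have h02 : (0 : ℂ) ∈ Wt (aa k) 2 := by
    change ‖1 - conj (aa k) * 0‖ ^ 2 < 2 * (1 - ‖(0 : ℂ)‖ ^ 2)
    simp
  have hmax := Complex.norm_le_of_forall_mem_frontier_norm_le hbdd hdc hfr (subset_closure h02)
  have h3 : ext P B 0 = B 0 := by simp [ext, hP0]
  rw [h3] at hmax
  have hP0m : ‖P 0‖ ≤ (1 / 4) ^ k * m := (PP_zero_norm k).trans hspec
  have hsq : Real.sqrt ‖P 0‖ ≤ (1 / 2) ^ k * Real.sqrt m := by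
    have h5 : Real.sqrt ‖P 0‖ ≤ Real.sqrt ((1 / 4) ^ k * m) := Real.sqrt_le_sqrt hP0m
    rw [Real.sqrt_mul (by positivity)] at h5
    have h6 : Real.sqrt ((1 / 4 : ℝ) ^ k) = (1 / 2) ^ k := by
      have : ((1 : ℝ) / 4) ^ k = ((1 / 2) ^ k) ^ 2 := by
        rw [← pow_mul, mul_comm, pow_mul]; norm_num
      rw [this, Real.sqrt_sq (by positivity)]
    rwa [h6] at h5
  calc ‖B 0‖ * Real.sqrt ‖P 0‖ ≤ (C / Real.sqrt m) * ((1 / 2) ^ k * Real.sqrt m) := by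
        gcongr
    _ = C * (1 / 2) ^ k := by
        have := (Real.sqrt_pos.2 hmpos).ne'
        field_simp

theorem psi_injOn {a : ℂ} (ha : ‖a‖ < 1) : InjOn (psi a) (ball 0 1) := by
  intro z hz w hw h
  rw [mem_ball_zero_iff] at hz hw
  rw [psi, psi, div_eq_div_iff (den_ne ha hz.le) (den_ne ha hw.le)] at h
  have h1 : (z - w) * (1 - conj a * a) = 0 := by linear_combination h
  rcases mul_eq_zero.1 h1 with h2 | h2
  · exact sub_eq_zero.1 h2
  · exact absurd h2 (conj_mul_self_ne ha)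

theorem zeros_countable {a : ℂ} (ha : ‖a‖ < 1) {n : ℕ} (hn : 1 ≤ n) :
    (Wt a 4 ∩ {z | PP a n z = 0}).Countable := by
  have hsub := Wt_sub_ball (a := a) (t := 4) (by norm_num)
  have hfin : {w : ℂ | w ^ (2 * n) = (1 / 4) ^ (2 * n)}.Finite := by
    refine (Polynomial.nthRoots (2 * n) ((1 / 4 : ℂ) ^ (2 * n))).toFinset.finite_toSet.subset ?_
    intro w hw
    simpa [Polynomial.mem_nthRoots (show 0 < 2 * n by omega)] using hw
  have h2 : (Wt a 4 ∩ psi a ⁻¹' {w : ℂ | w ^ (2 * n) = (1 / 4) ^ (2 * n)}).Finite := by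
    have himg : (psi a '' (Wt a 4 ∩ psi a ⁻¹' {w : ℂ | w ^ (2 * n) = (1 / 4) ^ (2 * n)})).Finite :=
      hfin.subset (by rintro _ ⟨z, hz, rfl⟩; exact hz.2)
    exact Set.Finite.of_finite_image himg
      ((psi_injOn ha).mono (inter_subset_left.trans hsub))
  refine h2.countable.mono ?_
  rintro z ⟨hz, hz0⟩
  exact ⟨hz, sub_eq_zero.1 hz0⟩

theorem exists_coverData : Nonempty Pool.Agent.H27.CoverData := by
  have hsub : ∀ k, Wt (aa k) 4 ⊆ ball 0 1 := fun k => Wt_sub_ball (by norm_num)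
  have hlt : ∀ k, ∀ z ∈ Wt (aa k) 4, ‖z‖ < 1 := fun k z hz => mem_ball_zero_iff.1 (hsub k hz)
  have hPd : ∀ j k, DifferentiableOn ℂ (PP (aa j) (nn j)) (Wt (aa k) 4) := fun j k =>
    (PP_differentiableOn (aa_lt j) (nn j)).mono (hsub k)
  refine ⟨{ W := fun k => Wt (aa k) 4
            P := fun k => PP (aa k) (nn k)
            s := fun k => ss (aa k) (nn k)
            isOpen_W := fun k => isOpen_Wt _ _
            W_sub := hsub
            D_sub := fun k => half_sub (aa_lt k)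
            P_diff := hPd
            s_diff := ?_
            s_sq := fun j k hjk z hz => ss_sq (aa_sep hjk hz)
            P_ne := fun j k hjk z hz => PP_ne (nn_pos j) (aa_sep hjk hz)
            P_bdd := fun j k z hz => PP_bdd (aa_lt j) (hlt k z hz) _
            conn := ?_
            nosqrt := ?_
            est := est_aux }⟩
  · intro j k hjk z hz
    exact (ss_differentiableAt (nn_pos j) (aa_lt j) (hlt k z hz)
      (aa_sep hjk hz)).differentiableWithinAt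
  · intro k
    have h := isPreconnected_diff_countable (convex_Wt (aa k) (t := 4) (by norm_num))
      (isOpen_Wt _ _) (zeros_countable (aa_lt k) (nn_pos k))
    have e : Wt (aa k) 4 \ (Wt (aa k) 4 ∩ {z | PP (aa k) (nn k) z = 0}) =
        Wt (aa k) 4 ∩ {z | PP (aa k) (nn k) z ≠ 0} := by
      ext z
      constructor
      · rintro ⟨h1, h2⟩; exact ⟨h1, fun h3 => h2 ⟨h1, h3⟩⟩
      · rintro ⟨h1, h2⟩; exact ⟨h1, fun h3 => h2 h3.2⟩
    rwa [e] at h
  · intro k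
    obtain ⟨b, hb, hb0⟩ := exists_zero (aa_lt k) (nn k)
    exact no_sqrt (isOpen_Wt _ _) (hPd k k) hb hb0
      (PP_simple (aa_lt k) (hlt k b hb) (nn_pos k) hb0)

end Pool.Agent.H32Cover
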